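import Mathlib
import Pool.Agent.N988.EA.Defs2

/-!
# Ground states of the Edwards-Anderson model on infinite hierarchical lattices

The lattices `H n`, their edges and vertices, the energy `act` and the infinite lattice with the
couplings `cpl p J n` of `H n` are defined in `Pool.Agent.N988.EA.Defs` and `Defs2`.
-/

open MeasureTheory
open Pool.Agent.N988.EA

namespace Pool.Agent.N988.EZ

/-- Ground states of the infinite lattice. A configuration is a consistent family of
configurations `σ n` of the vertices of `H n`. Every change of spins inside `H n` (not of its two
ends) increases the energy. -/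
structure IsGround {b : ℕ} (p : ℕ → Fin b × Bool) (J : EdgeInf b p → ℝ)
    (σ : (n : ℕ) → Pt b n → Bool) : Prop where
  consistent : ∀ n x, σ (n + 1) (emb (p n).1 (p n).2 x) = σ n x
  minimal : ∀ n (s : Vert b n → Bool), s ≠ (fun x => σ n (.inr x)) →
    act (cpl p J n) (fun t => σ n (.inl t)) s <
      act (cpl p J n) (fun t => σ n (.inl t)) (fun x => σ n (.inr x))

end Pool.Agent.N988.EZ
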