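import Mathlib
import Pool.Agent.N988.EZ.Defs
import Pool.Agent.N988.EA.Stm2

/-!
# Ground states on infinite hierarchical lattices: statements of the parts
-/

open MeasureTheory Set Filter
open scoped ENNReal Topology
open Pool.Agent.N988.EA

namespace Pool.Agent.N988.EZ

noncomputable section

/-- The effective coupling of two couplings in series at temperature zero:
`sign a * sign b * min |a| |b|`. -/
def ps (a b : ℝ) : ℝ := (|a + b| - |a - b|) / 2

/-- The effective coupling of the ends at temperature zero. -/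
def K0 {b : ℕ} : (n : ℕ) → (Edge b n → ℝ) → ℝ
  | 0, J => J ()
  | n + 1, J => ∑ i : Fin b, ps (K0 n fun e => J (i, false, e)) (K0 n fun e => J (i, true, e))

/-- `σ` is a ground state of `H n` with the end spins `τ`. -/
def Mx {b n : ℕ} (J : Edge b n → ℝ) (τ : Bool → Bool) (σ : Vert b n → Bool) : Prop :=
  ∀ s, act J τ s ≤ act J τ σ

/-- The end spins of the half `h` of a branch with middle spin `y`. -/
def he (τ : Bool → Bool) (h : Bool) (y : Bool) : Bool → Bool := fun t => if t = h then τ t else y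

/-- Z1, S_MX: the maximum of the action. Proof: sum over the branches; in a branch, the maximum
over the middle spin `y` of `C + C' + K τ₀ y + K' y τ₁` is `C + C' + |K τ₀ + K' τ₁|`, which equals
`C + C' + (|K + K'| + |K - K'|) / 2 + ps K K' τ₀ τ₁`. -/
def S_MX : Prop := ∀ (b n : ℕ) (J : Edge b n → ℝ), ∃ C : ℝ, ∀ τ : Bool → Bool,
  (∃ σ, Mx J τ σ) ∧ ∀ σ, Mx J τ σ → act J τ σ = C + K0 n J * sg (τ false) * sg (τ true)

/-- Z2, S_RS: the ground states of `H (n + 1)` in terms of those of `H n` (from `S_MX`). -/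
def S_RS : Prop := ∀ (b n : ℕ) (J : Edge b (n + 1) → ℝ) (τ : Bool → Bool)
  (σ : Vert b (n + 1) → Bool), Mx J τ σ ↔
  ∀ i : Fin b,
    (∀ h : Bool, Mx (fun e => J (i, h, e)) (he τ h (σ (Sum.inl i)))
      (fun x => σ (Sum.inr (i, h, x)))) ∧
    0 ≤ sg (σ (Sum.inl i)) * ((K0 n fun e => J (i, false, e)) * sg (τ false) +
      (K0 n fun e => J (i, true, e)) * sg (τ true))

/-- Unique ground state of `H n` for all end spins. -/
def UM {b n : ℕ} (J : Edge b n → ℝ) : Prop := ∀ τ : Bool → Bool, ∃! σ, Mx J τ σ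

/-- The effective coupling of `H n` at temperature zero. -/
def own0 {b : ℕ} (p : ℕ → Fin b × Bool) (J : EdgeInf b p → ℝ) (n : ℕ) : ℝ := K0 n (cpl p J n)

/-- The one of the other half of the branch of `H (n + 1)` which contains `H n`. -/
def sib0 {b : ℕ} (p : ℕ → Fin b × Bool) (J : EdgeInf b p → ℝ) (n : ℕ) : ℝ :=
  K0 n fun e => cpl p J (n + 1) ((p n).1, !(p n).2, e)

/-- Z3, S_AT (no ties; from `S_RS`). Proof: for atomless `μ` and `b ≥ 1` the law of `K0 n` has no
atoms (`ps a b = x` implies `|a| = |x|` or `|b| = |x|`; a sum with an independent atomless variable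
is atomless), so almost surely `|K0|` of the two halves of each branch of each cell differ; then
`UM` by induction and `S_RS`. -/
def S_AT : Prop := ∀ (b : ℕ), 1 ≤ b → ∀ (μ : Measure ℝ) [IsProbabilityMeasure μ],
  (∀ x, μ {x} = 0) → ∀ n : ℕ, Measurable (K0 n : (Edge b n → ℝ) → ℝ) ∧
    (∀ x, (P μ b n).map (K0 n) {x} = 0) ∧
    ∀ᵐ J ∂(P μ b n), UM J

/-- Z4, S_IO0: infinitely often `H n` has a larger coupling than the other half of its branch.
Proof: the same as `S_IO` of `Pool.Agent.N988.EA.Stm4`, proved by helper78 in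
`Pool/Agent/N78/EA_IO.lean`, with `ps` instead of `ph` (both are odd in both arguments), and strict
because the laws have no atoms. -/
def S_IO0 : Prop := ∀ (b : ℕ), 2 ≤ b → ∀ (μ : Measure ℝ) [IsProbabilityMeasure μ],
  (∀ x, μ {x} = 0) → μ.map (fun x => -x) = μ → ∀ (p : ℕ → Fin b × Bool),
    ∀ᵐ J ∂(Measure.infinitePi fun _ : EdgeInf b p => μ),
      ∀ k : ℕ, ∃ n, k ≤ n ∧ |sib0 p J n| < |own0 p J n|

/-- Z5, S_DET (deterministic; from `S_RS`). Proof: at an `n` with `|sib0| < |own0|` every ground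
state `σ` of the infinite lattice has `own0 n * σ₀ σ₁ > 0` for the ends of `H n` (second part of
`S_RS` in `H (n + 1)`), and inside `H n` it is the unique ground state with these end spins; so
`σ n` is determined up to a global flip, and hence `σ` is. Existence: for such `n` take the ground
state of `H n` with end spins of the sign of `own0 n`, flipped such that the left end of `H 0` has
the spin `true`; for `n < n'` the one of `H n'` restricts to the one of `H n` (`S_RS` repeatedly).
The restriction of these to all `H m`. -/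
def S_DET : Prop := ∀ (b : ℕ) (p : ℕ → Fin b × Bool) (J : EdgeInf b p → ℝ),
  (∀ n, UM (cpl p J n)) → (∀ k : ℕ, ∃ n, k ≤ n ∧ |sib0 p J n| < |own0 p J n|) →
  ∃ σ, IsGround p J σ ∧ ∀ σ', IsGround p J σ' ↔ σ' = σ ∨ σ' = fun n x => !(σ n x)

/-- The result: exactly two ground states. -/
def S_GS : Prop := ∀ (b : ℕ), 2 ≤ b → ∀ (μ : Measure ℝ) [IsProbabilityMeasure μ],
  (∀ x, μ {x} = 0) → μ.map (fun x => -x) = μ → ∀ (p : ℕ → Fin b × Bool),
    ∀ᵐ J ∂(Measure.infinitePi fun _ : EdgeInf b p => μ),
      ∃ σ, IsGround p J σ ∧ ∀ σ', IsGround p J σ' ↔ σ' = σ ∨ σ' = fun n x => !(σ n x)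

theorem t_GS (hM : S_MARG) (h1 : S_AT) (h2 : S_IO0) (h3 : S_DET) : S_GS := by
  intro b hb μ _ ha hs p
  have e1 : ∀ᵐ J ∂(Measure.infinitePi fun _ : EdgeInf b p => μ), ∀ n, UM (cpl p J n) := by
    rw [ae_all_iff]
    intro n
    obtain ⟨m1, m2⟩ := hM μ b p n
    have h4 := (h1 b (by omega) μ ha n).2.2
    rw [← m2] at h4
    exact ae_of_ae_map m1.aemeasurable h4
  filter_upwards [e1, h2 b hb μ ha hs p] with J k1 k2
  exact h3 b p J k1 k2

end

end Pool.Agent.N988.EZ
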