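import Pool.Agent.N988.EZ.Stm
import Pool.Agent.N645.EZ_MXRS
import Pool.Agent.N286.EZ_AT
import Pool.Agent.N700.EZ_IO0
import Pool.Agent.N186.EZ_DET
import Pool.Agent.N413.EA_MARG

/-!
# Ground states on infinite hierarchical lattices: assembly
-/

open Pool.Agent.N988.EA

namespace Pool.Agent.N988.EZ

theorem k_RS : S_RS := Pool.Agent.N645.EZ.t_RS
theorem k_AT : S_AT := Pool.Agent.N286.EZ.t_AT k_RS
theorem k_MARG : S_MARG := Pool.Agent.N413.EA.t_MARG
theorem k_IO0 : S_IO0 := Pool.Agent.N700.EZ.t_IO0 k_MARG k_AT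
theorem k_DET : S_DET := Pool.Agent.N186.EZ.t_DET k_RS
theorem k_GS : S_GS := t_GS k_MARG k_AT k_IO0 k_DET

end Pool.Agent.N988.EZ
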